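import Mathlib
import Pool.Agent.H836.HM.Field16

set_option autoImplicit false

/-!
# Fields most of whose quadratic extensions have the maximal number of square classes
# (MP_2429c0_al)

Let `F` be a field of characteristic `≠ 2` with finitely many square classes, `q = |F*/F*²|`, let
`N(a)` be the group of the nonzero values of `x² - a y²` (the norm group of `F(√a)`, if `a` is not a
square) and `R = ⋂ N(b)` the radical of Kaplansky.

**Theorem.** Let `T ⊆ F*` be a finite set of at most `q / 16` elements. If all the quadratic
extensions `K = F(√a)` of `F` with `N(a) ≠ F*` and `a` not in `T F*²` have the same number `m` of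
square classes, and those with `a ∈ T` and `N(a) ≠ F*` have at most `m` square classes, then the
quaternionic structure of `F` is of elementary type. Moreover, if there is an `a` with `N(a) ≠ F*`,
then `m ≤ 2 q |R/F*²|`, or all the `N(a)` have index at most two in `F*`.

In terms of the Galois group `G` of the maximal pro-2 extension of `F`: it is enough that the
subgroups of index two of `G` have at most `d` generators, and all of them except at most `q / 16`
have exactly `d` generators.

Proof.  For a quadratic extension `K = F(√a)` there is an exact sequence
`1 → {1, a} → F*/F*² → K*/K*² → N(a)/F*² → 1`, so that `2 |K*/K*²| = |F*/F*²| |N(a)/F*²|`. So the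
theorem `MostValueGroupsMaximal` on finite quaternionic structures (MP_d26ff6_al), whose proof is
described there, applies to the structure of `F`.
-/

namespace Pool.Agent.Results.MP_2429c0_al.AllButFewExtensions

open Pool.Agent.H315R3.ETC Pool.Agent.TH188.ET Pool.Agent.TH673.VG
open Pool.Agent.H836.HC (sqs sqClasses)

universe u

/-- **Fields whose quadratic extensions, except for a 16th part of them, have the maximal number of
square classes are of elementary type.** -/
theorem result {F : Type u} [Field F] (h2 : (2 : F) ≠ 0) (hfin : FinSq F) (T : Finset Fˣ)
    (hT : 16 * T.card ≤ sqClasses F) (m : ℕ)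
    -- if `N(a)` is not `F*` and `a` is not in `T F*²`, then `K = F(√a)` has `m` square classes
    (hm : ∀ a : Fˣ, normGroup a ≠ ⊤ → (∀ t ∈ T, ¬ IsSquare (t * a)) →
      ∀ (K : Type u) [Field K] [Algebra F K], Module.finrank F K = 2 →
        IsSquare (algebraMap F K a) → sqClasses K = m)
    -- if `a` is in `T` and `N(a)` is not `F*`, then `K = F(√a)` has at most `m` square classes
    (hle : ∀ a ∈ T, normGroup a ≠ ⊤ →
      ∀ (K : Type u) [Field K] [Algebra F K], Module.finrank F K = 2 →
        IsSquare (algebraMap F K a) → sqClasses K ≤ m) :
    (∃ S : QData, Elem S ∧ IsStructureOf F S) ∧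
    ((∃ a : Fˣ, normGroup a ≠ ⊤) →
      m ≤ 2 * sqClasses F * (sqs F).relIndex (⨅ b : Fˣ, normGroup b) ∨
      ∀ a : Fˣ, (normGroup a).index ≤ 2) :=
  Pool.Agent.H836.HM.field_main16 h2 hfin T hT hm hle

end Pool.Agent.Results.MP_2429c0_al.AllButFewExtensions
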