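import Mathlib
import Pool.Agent.H836.HC.Field

set_option autoImplicit false

/-!
# Fields all of whose quadratic extensions but one have the same number of square classes
# (MP_2429c0_al)

Let `F` be a field of characteristic `≠ 2` with finitely many square classes, let `N(a)` be the
group of the nonzero values of `x² - a y²` (the norm group of `F(√a)`, if `a` is not a square), let
`R = ⋂ N(b)` be the radical of Kaplansky, and let `c` be an arbitrary element of `F*`.

**Theorem.** If all the quadratic extensions `K = F(√a)` of `F` with `N(a) ≠ F*` and `N(ca) ≠ F*`
have the same number `m` of square classes, then the quaternionic structure of `F` is of elementary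
type. This is the case, for example, if all the quadratic extensions of `F` except possibly one have
the same number of square classes. Moreover, if there are such `a`, then `m ≤ 2 q r` or `q² ≤ 4 m`,
where `q = |F*/F*²|` and `r = |R/F*²|`.

In terms of the Galois group `G` of the maximal pro-2 extension of `F`: it is enough that all the
subgroups of index two of `G`, except possibly one, have the same number of generators.

Proof.  There is an exact sequence `1 → {1, a} → F*/F*² → K*/K*² → N(a)/F*² → 1`, so that
`2 |K*/K*²| = |F*/F*²| |N(a)/F*²|` (`sqClasses_quadratic`): if `z ∈ K*` has norm `c²`, then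
`(z + c)² = z (tr z + 2 c)`. So the groups `N(a)` in question have the same order modulo squares,
and the theorem `EqualWithOneException` on quaternionic structures (MP_d26ff6_al) applies.
-/

namespace Pool.Agent.Results.MP_2429c0_al.AllButOneExtension

open Pool.Agent.H315R3.ETC Pool.Agent.TH188.ET Pool.Agent.TH673.VG
open Pool.Agent.H836.HC (sqs sqClasses)

universe u

/-- **Fields all of whose quadratic extensions but one have the same number of square classes are of
elementary type.** More precisely, only the extensions `F(√a)` with `N(a) ≠ F*` and `N(ca) ≠ F*` are
considered. -/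
theorem result {F : Type u} [Field F] (h2 : (2 : F) ≠ 0) (hfin : FinSq F) (c : Fˣ) (m : ℕ)
    -- if `N(a)`, `N(ca)` are not `F*`, then `K = F(√a)` has `m` square classes
    (hm : ∀ a : Fˣ, normGroup a ≠ ⊤ → normGroup (c * a) ≠ ⊤ →
      ∀ (K : Type u) [Field K] [Algebra F K], Module.finrank F K = 2 →
        IsSquare (algebraMap F K a) → sqClasses K = m) :
    (∃ S : QData, Elem S ∧ IsStructureOf F S) ∧
    ((∃ a : Fˣ, normGroup a ≠ ⊤ ∧ normGroup (c * a) ≠ ⊤) →
      m ≤ 2 * sqClasses F * (sqs F).relIndex (⨅ b : Fˣ, normGroup b) ∨
      sqClasses F ^ 2 ≤ 4 * m) :=
  Pool.Agent.H836.HC.field_main h2 hfin c hm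

end Pool.Agent.Results.MP_2429c0_al.AllButOneExtension
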