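import Mathlib
import Pool.Agent.H403.Z.Wit3
import Pool.Agent.H403.Z.Cyc5
import Pool.Agent.H403.Z.Pow3

set_option autoImplicit false

/-! # MP_2429c0_al: the weak elementary type conjecture and finitely generated subnormal subgroups

Let `F` be a field of characteristic `≠ 2` with finitely many square classes, and let `G_F(2)` be the
Galois group of its quadratic closure `F(2)`.

1. If `G_F(2)` has a closed subnormal subgroup `N ≠ 1` of infinite index which is topologically
   finitely generated, then `F` has a valuation ring `O` with `1 + m ⊆ F*²` and residue field `k` such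
   that the quaternionic structure of `F` is an iterated group extension of that of `k`, and
   `|F*/F*²| = 2^r |k*/k*²|`, `r ≥ 1`.
2. The same holds if `|E*/E*²| < 2^([E : K] - 1) |K*/K*²|` for one finite subextension `K` of `F(2)`
   with `-1 ∈ K*²` and `|K*/K*²| > 2`, and one cyclic extension `E` of `K` of degree `2^m > 1`; and if
   `d(F) > 7`, where `d(K) = dim K*/K*²`, and `d(K) - 7 < (3/2)^m (d(F) - 7)` for one `m` and all `K` of
   degree `2^m` over `F` in `F(2)`.
3. Therefore the weak elementary type conjecture is true if it is true for the fields `F` such that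
   all finitely generated closed subnormal subgroups of `G_F(2)` are trivial or of finite index, and
   `|E*/E*²| ≥ 2^([E : K] - 1) |K*/K*²|` for all `K`, `E` as in 2, and for all `m` there is `K` of
   degree `2^m` over `F` in `F(2)` with `d(K) - 7 ≥ (3/2)^m (d(F) - 7)` if `d(F) > 7`.
4. Let `K ≠ F(2)` be a Galois extension of `F` of infinite degree inside `F(2)` with finitely many
   square classes. If `-1 ∈ F*²`, `|K*/K*²| ≤ 8` and `|(F* ∩ K*²)/F*²| ≤ 8`, then the structure of `F` is
   of elementary type.  The same holds with `n ≥ 2` in place of `8` if all structures of fields with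
   at most `n` square classes and `-1` a square are of elementary type.
5. If `K` is as in 4 and contains all roots of unity of 2-power order, `F(μ_{2^∞})` has infinite degree
   over `F`, and `|(F* ∩ K*²)/F*²| ≤ 4`, then the structure of `F` is of elementary type.

In 4 and 5 one takes a minimal compatible valuation ring `O` of `F`. Its residue field `k` has no
compatible valuation ring. By 1 the residue field of `K` is quadratically closed or finite over `k`.
In the first case `k*/k*²` embeds in `(F* ∩ K*²)/F*²`, in the second case `|k*/k*²| ≤ |K*/K*²|` by 2. -/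

namespace Pool.Agent.Results.MP_2429c0_al.SubnormalSubgroups

open Pool.Agent.H315R3.ETC Pool.Agent.TH188.ET

/-- the group of squares of `F*` -/
def squares (F : Type) [Field F] : Subgroup Fˣ := (powMonoidHom 2 : Fˣ →* Fˣ).range

/-- the quaternionic structure of `F` is of elementary type -/
def ElementaryType (F : Type) [Field F] : Prop := ∃ S : QData, Elem S ∧ IsStructureOf F S

/-- `K` is the quadratic closure of `F`: the compositum of the finite Galois extensions of `F` of
degree a power of two -/
def IsQuadraticClosure {F : Type} [Field F]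
    (K : IntermediateField F (AlgebraicClosure F)) : Prop :=
  K = sSup {L : IntermediateField F (AlgebraicClosure F) |
    FiniteDimensional F L ∧ IsGalois F L ∧ ∃ k : ℕ, Module.finrank F L = 2 ^ k}

/-- `K` is contained in a finite Galois extension of `F` of degree a power of two: the finite
subextensions of the quadratic closure -/
def IsFiniteTwoExtension {F : Type} [Field F]
    (K : IntermediateField F (AlgebraicClosure F)) : Prop :=
  ∃ L : IntermediateField F (AlgebraicClosure F), K ≤ L ∧
    FiniteDimensional F L ∧ IsGalois F L ∧ ∃ k : ℕ, Module.finrank F L = 2 ^ k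

/-- all topologically finitely generated closed subnormal subgroups of the Galois group of the
quadratic closure are trivial or of finite index -/
def SubnormalSubgroupsOpen (F : Type) [Field F] : Prop :=
  ∀ K : IntermediateField F (AlgebraicClosure F), IsQuadraticClosure K →
    ∀ N : Subgroup (↥K ≃ₐ[F] ↥K), N.IsSubnormal → IsClosed (N : Set (↥K ≃ₐ[F] ↥K)) →
      (∃ S : Set (↥K ≃ₐ[F] ↥K), S.Finite ∧ (Subgroup.closure S).topologicalClosure = N) →
      N = ⊥ ∨ N.index ≠ 0

/-- `E` is a cyclic Galois extension of `K` of degree `2^m`, `m ≥ 1` -/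
structure IsCyclicTwoExtension (K E : Type) [Field K] [Field E] [Algebra K E] : Prop where
  fin : FiniteDimensional K E
  gal : IsGalois K E
  cyc : IsCyclic (E ≃ₐ[K] E)
  deg : ∃ m : ℕ, Module.finrank K E = 2 ^ (m + 1)

/-- `2^([E : K] - 1) |K*/K*²| ≤ |E*/E*²|` for all finite subextensions `K` of the quadratic closure
in which `-1` is a square and which have more than two square classes, and all cyclic extensions `E`
of `K` of degree `2^m`, `m ≥ 1` -/
def LinearGrowth (F : Type) [Field F] : Prop :=
  ∀ K : IntermediateField F (AlgebraicClosure F), IsFiniteTwoExtension K →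
    (-1 : Kˣ) ∈ squares K → 2 < (squares K).index →
    ∀ (E : Type) [Field E] [Algebra K E], IsCyclicTwoExtension K E →
      2 ^ (Module.finrank K E - 1) * (squares K).index ≤ (squares E).index

/-- the dimension of `K*/K*²` over `Z/2`, if this group is finite: the logarithm of its order -/
noncomputable def dimension (K : Type) [Field K] : ℕ := Nat.log 2 (squares K).index

/-- if `F*/F*²` has dimension `> 7`, then for every `m` there is a field `K` of degree `2^m` over `F`
in the quadratic closure such that `2^m (d(K) - 7) ≥ 3^m (d(F) - 7)`, where `d` is the dimension of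
the group of square classes -/
def PowerGrowth (F : Type) [Field F] : Prop := 7 < dimension F →
  ∀ m : ℕ, ∃ K : IntermediateField F (AlgebraicClosure F), IsFiniteTwoExtension K ∧
    Module.finrank F K = 2 ^ m ∧
      3 ^ m * dimension F + 7 * 2 ^ m ≤ 2 ^ m * dimension K + 7 * 3 ^ m

/-- `F` has a valuation ring `O` with `1 + m ⊆ F*²`, whose residue field `k` has characteristic
`≠ 2` and fewer square classes, and the structure of `F` is the `r`-fold group extension of that of
`k`, where `|F*/F*²| = 2^r |k*/k*²|`, `r ≥ 1` -/
def IsGroupExtension (F : Type) [Field F] : Prop :=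
  ∃ O : ValuationSubring F, (∀ x : F, x ∈ O → x⁻¹ ∉ O → IsSquare (1 + x)) ∧
    (2 : IsLocalRing.ResidueField O) ≠ 0 ∧
    ∃ (T : QData) (r : ℕ), 1 ≤ r ∧
      2 ^ r * (squares (IsLocalRing.ResidueField O)).index = (squares F).index ∧
      IsStructureOf (IsLocalRing.ResidueField O) T ∧ IsStructureOf F (ext^[r] T)

/-- `K` is a Galois extension of `F` of infinite degree inside the quadratic closure, with
finitely many square classes and not quadratically closed -/
structure IsThin {F : Type} [Field F] (K : IntermediateField F (AlgebraicClosure F)) : Prop where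
  le : ∀ Q : IntermediateField F (AlgebraicClosure F), IsQuadraticClosure Q → K ≤ Q
  gal : IsGalois F K
  inf : ¬ FiniteDimensional F K
  fin : (squares K).index ≠ 0
  ne : (squares K).index ≠ 1

/-- the group `F* ∩ K*²` -/
noncomputable def squaresIn {F : Type} [Field F] (K : IntermediateField F (AlgebraicClosure F)) : Subgroup Fˣ :=
  (squares K).comap (Units.map (algebraMap F K : F →* K))

theorem exists_root {F : Type} [Field F] (h2 : (2 : F) ≠ 0) : ∃ ζ : F, IsPrimitiveRoot ζ 2 := by
  have hprime : Fact (Nat.Prime 2) := ⟨Nat.prime_two⟩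
  have h1 : (-1 : F) ≠ 1 := by
    intro h
    apply h2
    have h3 : (2 : F) = 1 - (-1) := by ring
    rw [h3, h, sub_self]
  exact ⟨-1, IsPrimitiveRoot.iff_orderOf.2 (orderOf_eq_prime (by norm_num) h1)⟩

/-- the two cases for the residue field of a minimal compatible valuation ring -/
theorem thin_cases {F : Type} [Field F] (h2 : (2 : F) ≠ 0) (hfin : (squares F).index ≠ 0)
    {K : IntermediateField F (AlgebraicClosure F)} (hK : IsThin K) :
    ∃ O : ValuationSubring F, Pool.Agent.H403.Z.Gd 2 O ∧
      (2 : IsLocalRing.ResidueField O) ≠ 0 ∧ (squares (IsLocalRing.ResidueField O)).index ≠ 0 ∧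
      ((squares (IsLocalRing.ResidueField O)).index ≤ (squares F).relIndex (squaresIn K) ∨
        (((-1 : Fˣ) ∈ squares F → 2 < (squares (IsLocalRing.ResidueField O)).index →
            (squares (IsLocalRing.ResidueField O)).index ≤ (squares K).index) ∧
          ((∀ (n : ℕ) (x : AlgebraicClosure F), x ^ 2 ^ n = 1 → x ∈ K) →
            FiniteDimensional F (IntermediateField.adjoin F
              {x : AlgebraicClosure F | ∃ n : ℕ, x ^ 2 ^ n = 1})))) := by
  have hprime : Fact (Nat.Prime 2) := ⟨Nat.prime_two⟩
  obtain ⟨ζ, hζ⟩ := exists_root h2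
  have hM := Pool.Agent.H403.W.maxPExt_maxP 2 F Nat.prime_two hζ
  have hle : K ≤ Pool.Agent.H403.W.maxPExt 2 F := hK.le _ rfl
  let K' := IntermediateField.restrict hle
  let e : K ≃ₐ[F] K' := IntermediateField.restrictAlgEquiv hle
  have hidx : (Pool.Agent.Y920.EP.pwG K' 2).index = (squares K).index :=
    (Pool.Agent.H403.Z.index_iso e.toRingEquiv).symm
  have := hK.gal
  obtain ⟨O, hO, hng, hcase⟩ := Pool.Agent.H403.Z.res_cases hM ⟨ζ, hζ⟩ K'
    (IsGalois.of_algEquiv e) (fun h => hK.inf (Module.Finite.equiv e.symm.toLinearEquiv))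
    (by rw [hidx]; exact hK.fin) (by rw [hidx]; exact hK.ne)
  have hfinO : (squares (IsLocalRing.ResidueField O)).index ≠ 0 :=
    Pool.Agent.H403.Z.index_res_ne Nat.prime_two hO.1 hfin
  refine ⟨O, hO, ?_, hfinO, ?_⟩
  · exact_mod_cast Pool.Agent.H403.Z.p_ne (p := 2) (O := O) hO.1.2.1 hO.1.1
  rcases hcase with h1 | ⟨h1, L, hL, hA, hfd, hX, hL0, hLK⟩
  · left
    have h3 : (squares (IsLocalRing.ResidueField O)).index = (squares F).relIndex O.unitGroup :=
      Pool.Agent.H403.Z.index_res Nat.prime_two hO.1
    rw [h3]
    refine Subgroup.relIndex_le_of_le_right ?_ ?_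
    · intro x hx
      obtain ⟨y, hy⟩ := h1 hx
      have hy' : (y : K') ^ 2 = algebraMap F K' x := congrArg Units.val hy
      have h4 : (e.symm (y : K')) ^ 2 = algebraMap F K x := by
        rw [← map_pow, hy', AlgEquiv.commutes]
      refine ⟨Units.map (e.symm : K' →* K) y, Units.ext ?_⟩
      exact h4
    · have h4 := Subgroup.relIndex_dvd_index_of_normal (squares F) (squaresIn K)
      intro h5
      rw [h5] at h4
      exact hfin (zero_dvd_iff.1 h4)
  · right
    refine ⟨fun hneg hbig => ?_, fun hroots => ?_⟩
    · have hneg' : (-1 : (IsLocalRing.ResidueField O)ˣ) ∈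
          Pool.Agent.Y920.EP.pwG (IsLocalRing.ResidueField O) 2 := by
        obtain ⟨i, hi⟩ := hneg
        have hi' : (i : F) ^ 2 = -1 := congrArg Units.val hi
        have hiO : (i : F) ∈ O := by
          have h3 : O.valuation (i : F) ^ 2 = 1 := by
            rw [← map_pow, hi', Valuation.map_neg, map_one]
          exact (O.valuation_le_one_iff _).1
            (Pool.Agent.H403.Z.eq_one_of_pow two_ne_zero h3).le
        have h4 : (Pool.Agent.H403.Z.rs O ⟨i, hiO⟩) ^ 2 = -1 := by
          rw [← map_pow, ← map_one (Pool.Agent.H403.Z.rs O), ← map_neg]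
          congr 1
          exact Subtype.ext hi'
        have h5 : Pool.Agent.H403.Z.rs O ⟨i, hiO⟩ ≠ 0 := by
          intro h6
          rw [h6] at h4
          norm_num at h4
        exact ⟨Units.mk0 _ h5, Units.ext h4⟩
      have h6 := Pool.Agent.H403.Z.index_le_of_finite (F := IsLocalRing.ResidueField O) (L := L)
        hX hfd (Pool.Agent.H403.Z.prim_res Nat.prime_two ⟨ζ, hζ⟩ hO.1) hneg' hng hfinO
        ⟨fun h => by
          have h7 : (squares (IsLocalRing.ResidueField O)).index = 1 := h
          omega, fun h => by
          have h7 : (squares (IsLocalRing.ResidueField O)).index = 2 := h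
          omega⟩
      exact h6.trans (hLK.trans hidx.le)
    · set S : Set (AlgebraicClosure F) := {x | ∃ n : ℕ, x ^ 2 ^ n = 1} with hS
      have hSK : IntermediateField.adjoin F S ≤ K := by
        rw [IntermediateField.adjoin_le_iff]
        rintro x ⟨n, hx⟩
        exact hroots n x hx
      let f : IntermediateField.adjoin F S →ₐ[F] K' :=
        (e : K →ₐ[F] K').comp (IntermediateField.inclusion hSK)
      have hfix : Pool.Agent.H403.Z.cycK 2 F K' ≤ f.fieldRange.fixingSubgroup := by
        intro σ hσ
        rw [IntermediateField.mem_fixingSubgroup_iff]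
        rintro _ ⟨y, rfl⟩
        have h3 : (σ : K' →ₐ[F] K').comp f = f := by
          refine IntermediateField.algHom_ext_of_eq_adjoin F (s := S) rfl ?_
          rintro x ⟨n, hx⟩
          refine hσ n _ ?_
          have h9 : (⟨x, IntermediateField.subset_adjoin F S ⟨n, hx⟩⟩ :
              IntermediateField.adjoin F S) ^ 2 ^ n = 1 := Subtype.ext hx
          rw [← map_pow, h9, map_one]
        exact congrArg (fun g : IntermediateField.adjoin F S →ₐ[F] K' => g y) h3
      have hgal' : IsGalois F K' := IsGalois.of_algEquiv e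
      have h4 : f.fieldRange.fixingSubgroup.index ≠ 0 := by
        intro h5
        have h6 := Subgroup.index_dvd_of_le hfix
        rw [h5] at h6
        exact h1 (zero_dvd_iff.1 h6)
      rw [← IntermediateField.finrank_eq_fixingSubgroup_index] at h4
      have h5 : FiniteDimensional F f.fieldRange :=
        Module.finite_of_finrank_pos (Nat.pos_of_ne_zero h4)
      let e₂ : IntermediateField.adjoin F S ≃ₐ[F] f.fieldRange := AlgEquiv.ofInjectiveField f
      exact Module.Finite.equiv e₂.symm.toLinearEquiv

/-- elementary type lifts from the residue field -/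
theorem elementary_of_residue {F : Type} [Field F] (h2 : (2 : F) ≠ 0)
    (hfin : (squares F).index ≠ 0) {O : ValuationSubring F} (hO : Pool.Agent.H403.Z.Gd 2 O)
    (h : ElementaryType (IsLocalRing.ResidueField O)) : ElementaryType F := by
  obtain ⟨-, -, T, k, -, -, hT, hTF⟩ := Pool.Agent.H403.Z.struct_of_gd h2 hfin hO
  obtain ⟨R, hR, hRs⟩ := h
  have hTE : Elem T := Elem.iso _ _ hR (iso_of_structure hRs hT)
  exact ⟨_, Pool.Agent.Y920.ETC.elem_iter hTE k, hTF⟩

/-- characteristic not two, finitely many square classes -/
def IsBase (F : Type) [Field F] : Prop := (2 : F) ≠ 0 ∧ (squares F).index ≠ 0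

/-- the weak elementary type conjecture (Q1) -/
def WeakConjecture : Prop := ∀ (F : Type) [Field F], IsBase F → ElementaryType F

/-- the conjecture for the fields with more than four square classes which have no finitely
generated closed subnormal subgroup as in (1) and have linear growth and power growth -/
def ReducedConjecture : Prop := ∀ (F : Type) [Field F], IsBase F → 4 < (squares F).index →
  SubnormalSubgroupsOpen F → LinearGrowth F → PowerGrowth F → ElementaryType F

/-- the conjecture for fields with at most `n` square classes and `-1` a square -/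
def SmallConjecture (n : ℕ) : Prop := ∀ (F : Type) [Field F], IsBase F →
  (-1 : Fˣ) ∈ squares F → (squares F).index ≤ n → ElementaryType F

/-- (1): fields with a finitely generated closed subnormal subgroup which is not trivial and has
infinite index -/
def SubnormalCase : Prop := ∀ (F : Type) [Field F], IsBase F → ¬ SubnormalSubgroupsOpen F →
  IsGroupExtension F

/-- (2): fields with slow growth of the number of square classes -/
def GrowthCase : Prop := ∀ (F : Type) [Field F], IsBase F →
  ¬ LinearGrowth F ∨ ¬ PowerGrowth F → IsGroupExtension F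

/-- (4): fields with an infinite Galois extension with at most `n` square classes -/
def ThinCase (n : ℕ) : Prop := ∀ (F : Type) [Field F], IsBase F → (-1 : Fˣ) ∈ squares F →
  ∀ K : IntermediateField F (AlgebraicClosure F), IsThin K → (squares K).index ≤ n →
    (squares F).relIndex (squaresIn K) ≤ n → ElementaryType F

/-- (5): extensions which contain the roots of unity of 2-power order -/
def CyclotomicCase : Prop := ∀ (F : Type) [Field F], IsBase F →
  ∀ K : IntermediateField F (AlgebraicClosure F), IsThin K →
    (∀ (n : ℕ) (x : AlgebraicClosure F), x ^ 2 ^ n = 1 → x ∈ K) →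
    ¬ FiniteDimensional F (IntermediateField.adjoin F
      {x : AlgebraicClosure F | ∃ n : ℕ, x ^ 2 ^ n = 1}) →
    (squares F).relIndex (squaresIn K) ≤ 4 → ElementaryType F

theorem result : SubnormalCase ∧ GrowthCase ∧ (ReducedConjecture → WeakConjecture) ∧
    ThinCase 8 ∧ (∀ n : ℕ, 2 ≤ n → SmallConjecture n → ThinCase n) ∧ CyclotomicCase := by
  have hprime : Fact (Nat.Prime 2) := ⟨Nat.prime_two⟩
  have hgood : ∀ (F : Type) [Field F], (2 : F) ≠ 0 → (squares F).index ≠ 0 →
      Pool.Agent.H403.Z.Good F 2 → IsGroupExtension F := by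
    intro F _ h2 hfin h
    exact Pool.Agent.H403.Z.struct_of_good h2 hfin h
  have hN : ∀ (F : Type) [Field F], (2 : F) ≠ 0 → ¬ SubnormalSubgroupsOpen F →
      Pool.Agent.H403.Z.Good F 2 := by
    intro F _ h2 h
    rw [SubnormalSubgroupsOpen] at h
    push Not at h
    obtain ⟨K, hK, N, hn, hcl, hfg, hne, hidx⟩ := h
    obtain ⟨ζ, hζ'⟩ := exists_root h2
    have hK' : K = Pool.Agent.H403.W.maxPExt 2 F := hK
    subst hK'
    exact Pool.Agent.H403.Z.good_of_subnormal
      (Pool.Agent.H403.W.maxPExt_maxP 2 F Nat.prime_two hζ') ⟨ζ, hζ'⟩ N hn hcl hidx hne hfg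
  have hG : ∀ (F : Type) [Field F], (2 : F) ≠ 0 → (squares F).index ≠ 0 →
      ¬ LinearGrowth F → Pool.Agent.H403.Z.Good F 2 := by
    intro F _ h2 hfin h
    rw [LinearGrowth] at h
    push Not at h
    obtain ⟨K, ⟨L, hKL, hfd, hgal, k, hk⟩, hneg, hbig, E, _, _, ⟨hE1, hE2, hE3, m, hm⟩, hlt⟩ := h
    let e := IntermediateField.restrictAlgEquiv hKL
    obtain ⟨ht1, ht2⟩ := Pool.Agent.H403.Z.tower0 hk (exists_root h2) _
      (IntermediateField.restrict hKL) rfl
    have hi : (squares (IntermediateField.restrict hKL)).index = (squares K).index :=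
      (Pool.Agent.H403.Z.index_iso e.toRingEquiv).symm
    have h2K : (2 : K) ≠ 0 := by
      intro h3
      apply h2
      apply (algebraMap F K).injective
      rw [map_zero, ← h3, map_ofNat]
    have hK0 : (squares K).index ≠ 0 := by
      rw [← hi]
      exact ht2 hfin
    obtain ⟨σ, hσ⟩ := hE3.exists_generator
    have hm' : Module.finrank K E = 2 ^ m * 2 := by rw [hm, pow_succ]
    have hgr := Pool.Agent.H403.Z.growth_cyc (p := 2) (r := m) (exists_root h2K) hneg
      ⟨fun h => by
        have h7 : (squares K).index = 1 := h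
        omega, fun h => by
        have h7 : (squares K).index = 2 := h
        omega⟩ hσ hm' hK0
    rcases hgr with h5 | h5
    · exact ht1 (Pool.Agent.H403.Z.good_iso e.toRingEquiv h5)
    · rw [hm'] at hlt
      exact absurd hlt (not_lt.2 h5)
  have hP : ∀ (F : Type) [Field F], (2 : F) ≠ 0 → (squares F).index ≠ 0 →
      ¬ PowerGrowth F → Pool.Agent.H403.Z.Good F 2 := by
    intro F _ h2 hfin h
    by_contra hgood'
    apply h
    intro hd m
    obtain ⟨ζ, hζ'⟩ := exists_root h2
    have hM := Pool.Agent.H403.W.maxPExt_maxP 2 F Nat.prime_two hζ'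
    have hX : Pool.Agent.H403.Z.PX 2 F (Pool.Agent.H403.W.maxPExt 2 F) :=
      ⟨hM.gal, fun E hfd hgal => (Pool.Agent.H403.Z.PS_of_maxP hM E).2.2⟩
    obtain ⟨K', hfd, hdeg, hgr⟩ := Pool.Agent.H403.Z.pow_growth (by norm_num) (by norm_num)
      Pool.Agent.H403.Z.step_two m F
      (Pool.Agent.H403.W.maxPExt 2 F) hX hM.root ⟨ζ, hζ'⟩ hgood' hfin hd
    obtain ⟨N, hN, hfdN, hgalN, k, hk⟩ := hX.closure K'
    refine ⟨IntermediateField.lift K', ⟨IntermediateField.lift N, ?_, ?_, ?_, k, ?_⟩, ?_, ?_⟩
    · rintro x hx
      obtain ⟨y, hy, rfl⟩ := hx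
      exact ⟨y, hN hy, rfl⟩
    · exact Module.Finite.equiv (IntermediateField.liftAlgEquiv N).toLinearEquiv
    · exact IsGalois.of_algEquiv (IntermediateField.liftAlgEquiv N)
    · rw [← (IntermediateField.liftAlgEquiv N).toLinearEquiv.finrank_eq, hk]
    · rw [← (IntermediateField.liftAlgEquiv K').toLinearEquiv.finrank_eq, hdeg]
    · have h1 : dimension (IntermediateField.lift K') = Pool.Agent.H403.Z.dd 2 K' :=
        (Pool.Agent.H403.Z.dd_iso (IntermediateField.liftAlgEquiv K').toRingEquiv).symm
      rw [h1]
      exact hgr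
  have hn : ∀ n : ℕ, 2 ≤ n → SmallConjecture n → ThinCase n := by
    intro n hn hyp F _ ⟨h2, hfin⟩ hneg K hK hKn hrel
    obtain ⟨O, hO, h2k, hk0, hcase⟩ := thin_cases h2 hfin hK
    refine elementary_of_residue h2 hfin hO (hyp _ ⟨h2k, hk0⟩ ?_ ?_)
    · obtain ⟨i, hi⟩ := hneg
      have hi' : (i : F) ^ 2 = -1 := congrArg Units.val hi
      have hiO : (i : F) ∈ O := by
        have h3 : O.valuation (i : F) ^ 2 = 1 := by
          rw [← map_pow, hi', Valuation.map_neg, map_one]
        exact (O.valuation_le_one_iff _).1
          (Pool.Agent.H403.Z.eq_one_of_pow two_ne_zero h3).le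
      have h4 : (Pool.Agent.H403.Z.rs O ⟨i, hiO⟩) ^ 2 = -1 := by
        rw [← map_pow, ← map_one (Pool.Agent.H403.Z.rs O), ← map_neg]
        congr 1
        exact Subtype.ext hi'
      have h5 : Pool.Agent.H403.Z.rs O ⟨i, hiO⟩ ≠ 0 := by
        intro h6
        rw [h6] at h4
        norm_num at h4
      exact ⟨Units.mk0 _ h5, Units.ext h4⟩
    · rcases hcase with h3 | ⟨h3, -⟩
      · exact h3.trans hrel
      · by_cases h4 : 2 < (squares (IsLocalRing.ResidueField O)).index
        · exact (h3 hneg h4).trans hKn
        · omega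
  refine ⟨fun F _ ⟨h2, hfin⟩ h => hgood F h2 hfin (hN F h2 h),
    fun F _ ⟨h2, hfin⟩ h => hgood F h2 hfin (h.elim (hG F h2 hfin) (hP F h2 hfin)), ?_,
    hn 8 (by norm_num) (fun F _ ⟨h2, hfin⟩ hneg h8 =>
      Pool.Agent.H403.Z.elem_of_eight h2 hfin hneg h8), hn, ?_⟩
  swap
  · intro F _ ⟨h2, hfin⟩ K hK hroots hinf hrel
    obtain ⟨O, hO, h2k, hk0, hcase⟩ := thin_cases h2 hfin hK
    refine elementary_of_residue h2 hfin hO (Pool.Agent.H403.Z.elem_of_four h2k hk0 ?_)
    rcases hcase with h3 | ⟨-, h3⟩
    · exact h3.trans hrel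
    · exact absurd (h3 hroots) hinf
  intro hyp
  have main : ∀ (n : ℕ) (F : Type) [Field F], (2 : F) ≠ 0 → (squares F).index ≠ 0 →
      (squares F).index = n → ElementaryType F := by
    intro n
    induction n using Nat.strong_induction_on with
    | _ n ih =>
      intro F _ h2 hfin hn
      by_cases h4 : (squares F).index ≤ 4
      · exact Pool.Agent.H403.Z.elem_of_four h2 hfin h4
      push Not at h4
      by_cases hg : IsGroupExtension F
      · obtain ⟨O, -, h2k, T, r, hr, hcard, hT, hTF⟩ := hg
        have h5 : (squares (IsLocalRing.ResidueField O)).index ≠ 0 := by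
          intro h
          rw [h, mul_zero] at hcard
          exact hfin hcard.symm
        have h6 : (squares (IsLocalRing.ResidueField O)).index < n := by
          rw [← hn, ← hcard]
          exact lt_mul_left (Nat.pos_of_ne_zero h5) (Nat.one_lt_pow (by omega) (by norm_num))
        obtain ⟨R, hR, hRs⟩ := ih _ h6 (IsLocalRing.ResidueField O) h2k h5 rfl
        have hTE : Elem T := Elem.iso _ _ hR (iso_of_structure hRs hT)
        exact ⟨_, Pool.Agent.Y920.ETC.elem_iter hTE r, hTF⟩
      · refine hyp F ⟨h2, hfin⟩ h4 ?_ ?_ ?_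
        · by_contra h
          exact hg (hgood F h2 hfin (hN F h2 h))
        · by_contra h
          exact hg (hgood F h2 hfin (hG F h2 hfin h))
        · by_contra h
          exact hg (hgood F h2 hfin (hP F h2 hfin h))
  exact fun F _ ⟨h2, hfin⟩ => main _ F h2 hfin rfl

end Pool.Agent.Results.MP_2429c0_al.SubnormalSubgroups
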